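import Mathlib

/-!
# Toric generalized pairs and their minimal log discrepancies

An affine toric variety with a torus-fixed point is given by a lattice, here `ℤ^n` without loss of
generality, and an `n`-dimensional rational polyhedral cone `σ` in `ℝ^n`.

A toric generalized pair `(X_σ, B + M)` has a boundary `B` supported on the torus-invariant prime
divisors and a nef part `M = ∑ μ_j M_j`, where `M_j` is a b-Cartier b-nef b-divisor. The latter is
given by a finite nonempty set `S_j` of characters: on a toric modification of `X_σ` on which the
function `w ↦ min {⟨m, w⟩ : m ∈ S_j}` is linear on the cones of the fan, `M_j` is the divisor which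
it defines, and it is generated by the sections in `S_j`. The condition that `K + B + M` is
`ℝ`-Cartier says that there is a linear function `ψ` such that the generalized log discrepancies are
`ψ(w) - ∑ μ_j min {⟨m, w⟩ : m ∈ S_j}`, for the primitive vectors `w` of `σ`.

A toric triple `(X_σ, B₀, ∏ a_j ^ c_j)` with monomial ideals `a_j` of the coordinate ring, generated
by the characters in `S_j`, is the special case in which the sets `S_j` lie in the dual cone; its log
discrepancies are `ψ(w) - ∑ c_j min {⟨m, w⟩ : m ∈ S_j}`, where `ψ(v_i) = 1 - mult_{D_i} B₀`.
-/

noncomputable section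

namespace Pool.Agent.helper22.ACC

/-- The data of a toric generalized pair of dimension `n`. -/
structure GenPair (n : ℕ) where
  /-- the number of the given generators of the cone `σ` -/
  p : ℕ
  /-- the generators `v i` of the cone `σ`, for instance the primitive generators of its rays -/
  v : Fin p → Fin n → ℤ
  /-- the linear function `ψ` -/
  psi : Fin n → ℝ
  /-- the coefficients `μ_j` together with the finite sets `S_j` of characters -/
  parts : List (ℝ × Finset (Fin n → ℤ))

variable {n : ℕ}

/-- the pairing of a character `m` of the torus with `w` -/
def pair (m : Fin n → ℤ) (w : Fin n → ℝ) : ℝ := ∑ j, (m j : ℝ) * w j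

/-- an integral vector, seen as a real vector -/
def toReal (z : Fin n → ℤ) : Fin n → ℝ := fun j => (z j : ℝ)

/-- the cone `σ`: all nonnegative combinations of the generators -/
def cone (t : GenPair n) : Set (Fin n → ℝ) :=
  {w | ∃ μ : Fin t.p → ℝ, (∀ i, 0 ≤ μ i) ∧ ∀ j, w j = ∑ i, μ i * (t.v i j : ℝ)}

/-- the least value of `pair m w` for `m` in `S` -/
def low (S : Finset (Fin n → ℤ)) (w : Fin n → ℝ) : ℝ :=
  sInf ((fun m => pair m w) '' (S : Set (Fin n → ℤ)))

/-- the generalized log discrepancy along the toric valuation `w` -/
def logDisc (t : GenPair n) (w : Fin n → ℝ) : ℝ :=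
  ∑ j, t.psi j * w j - (t.parts.map fun a => a.1 * low a.2 w).sum

/-- the coefficient of the boundary along the divisor of the generator `v i` -/
def coef (t : GenPair n) (i : Fin t.p) : ℝ := 1 - logDisc t (toReal (t.v i))

/-- `t` is a log canonical toric generalized pair of full dimension with coefficients in `Γ`;
for the boundary, sums of elements of `Γ` (in particular `0`) are allowed -/
structure IsLC (Γ : Set ℝ) (t : GenPair n) : Prop where
  /-- the coefficients of the boundary are finite sums of elements of `Γ` -/
  boundary : ∀ i, coef t i ∈ AddSubmonoid.closure Γ
  /-- the coefficients of the nef part lie in `Γ`, and the sets of characters are nonempty -/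
  parts : ∀ a ∈ t.parts, a.1 ∈ Γ ∧ a.2.Nonempty
  /-- all log discrepancies are nonnegative -/
  lc : ∀ z : Fin n → ℤ, toReal z ∈ cone t → 0 ≤ logDisc t (toReal z)
  /-- `σ` is `n`-dimensional -/
  full : (interior (cone t)).Nonempty

/-- the minimal log discrepancy at the torus-fixed point: the infimum of the log discrepancies over
the integral points in the interior of `σ` -/
def mld (t : GenPair n) : ℝ :=
  sInf {x | ∃ z : Fin n → ℤ, toReal z ∈ interior (cone t) ∧ x = logDisc t (toReal z)}

end Pool.Agent.helper22.ACC
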