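import Pool.Agent.helper22.ACC.Kron

/-!
# Cones: Carathéodory's theorem, interior points, lattices
-/

noncomputable section

namespace Pool.Agent.helper22.ACC

open Finset
open scoped Pointwise

theorem caratheodory {p n : ℕ} (v : Fin p → Fin n → ℝ) (w : Fin n → ℝ) :
    ∀ (N : ℕ) (μ : Fin p → ℝ), (univ.filter fun i => μ i ≠ 0).card = N → (∀ i, 0 ≤ μ i) →
    w = ∑ i, μ i • v i →
    ∃ (d : ℕ) (T : Fin d → Fin p) (l : Fin d → ℝ), (∀ i, 0 < l i) ∧ w = ∑ i, l i • v (T i) ∧
      LinearIndependent ℝ (fun i => v (T i)) := by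
  classical
  intro N
  induction N using Nat.strong_induction_on with
  | _ N ih =>
  intro μ hN hμ hw
  set s := univ.filter fun i => μ i ≠ 0 with hs
  have hsm : ∀ i, i ∈ s ↔ μ i ≠ 0 := fun i => by simp [hs]
  have hsum : ∑ i, μ i • v i = ∑ i : s, μ i • v i := by
    rw [Finset.sum_coe_sort s (fun i => μ i • v i)]
    symm
    apply Finset.sum_subset (Finset.subset_univ _)
    intro i _ hi
    have : μ i = 0 := by
      by_contra h; exact hi ((hsm i).2 h)
    rw [this, zero_smul]
  by_cases hli : LinearIndependent ℝ (fun i : s => v i)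
  · refine ⟨s.card, fun i => (s.equivFin.symm i : Fin p), fun i => μ (s.equivFin.symm i), ?_, ?_, ?_⟩
    · intro i
      exact lt_of_le_of_ne (hμ _) (Ne.symm ((hsm _).1 (s.equivFin.symm i).2))
    · rw [hw, hsum]
      exact (Equiv.sum_comp s.equivFin.symm (fun i : s => μ i • v i)).symm
    · exact hli.comp _ s.equivFin.symm.injective
  · rw [Fintype.not_linearIndependent_iff] at hli
    obtain ⟨g0, hg0, i0, hi0⟩ := hli
    -- some positive coefficient
    obtain ⟨g, hg, i1, hi1⟩ : ∃ g : s → ℝ, ∑ i, g i • v i = 0 ∧ ∃ i, 0 < g i := by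
      rcases lt_or_gt_of_ne hi0 with h | h
      · refine ⟨fun i => - g0 i, ?_, i0, by simpa using h⟩
        simp only [neg_smul, Finset.sum_neg_distrib]
        rw [hg0, neg_zero]
      · exact ⟨g0, hg0, i0, h⟩
    set c : Fin p → ℝ := fun i => if h : i ∈ s then g ⟨i, h⟩ else 0 with hc
    have hcs : ∀ i : s, c i = g i := fun i => by simp [hc]
    have hc0 : ∀ i, i ∉ s → c i = 0 := fun i hi => by simp [hc, hi]
    have hcsum : ∑ i, c i • v i = 0 := by
      rw [← hg, ← Finset.sum_congr rfl (fun i _ => by rw [hcs i] : ∀ i ∈ (univ : Finset s),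
        c i • v i = g i • v i), Finset.sum_coe_sort s (fun i => c i • v i)]
      symm
      apply Finset.sum_subset (Finset.subset_univ _)
      intro i _ hi
      rw [hc0 i hi, zero_smul]
    set P := univ.filter fun i => 0 < c i with hP
    have hPne : P.Nonempty := ⟨i1, by simp [hP, hcs i1, hi1]⟩
    obtain ⟨j, hj, hjmin⟩ := Finset.exists_min_image P (fun i => μ i / c i) hPne
    have hcj : 0 < c j := by simpa [hP] using hj
    have hjs : j ∈ s := by
      by_contra h; rw [hc0 j h] at hcj; exact lt_irrefl _ hcj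
    set t := μ j / c j with ht
    have ht0 : 0 ≤ t := div_nonneg (hμ j) hcj.le
    set μ' : Fin p → ℝ := fun i => μ i - t * c i with hμ'
    have h1 : ∀ i, 0 ≤ μ' i := by
      intro i
      by_cases hci : 0 < c i
      · have h2 := hjmin i (by simp [hP, hci])
        have h3 : t * c i ≤ μ i := by
          rw [ht]
          calc μ j / c j * c i ≤ μ i / c i * c i := mul_le_mul_of_nonneg_right h2 hci.le
            _ = μ i := div_mul_cancel₀ _ hci.ne'
        simp only [hμ']; linarith
      · have h2 : t * c i ≤ 0 := mul_nonpos_of_nonneg_of_nonpos ht0 (not_lt.1 hci)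
        have h3 := hμ i
        simp only [hμ']; linarith
    have h2 : w = ∑ i, μ' i • v i := by
      simp only [hμ', sub_smul, Finset.sum_sub_distrib, mul_smul, ← Finset.smul_sum, hcsum,
        smul_zero, sub_zero]
      exact hw
    have h3 : (univ.filter fun i => μ' i ≠ 0) ⊂ s := by
      rw [Finset.ssubset_iff_of_subset]
      · refine ⟨j, hjs, ?_⟩
        simp only [Finset.mem_filter, Finset.mem_univ, true_and, not_not, hμ', ht]
        field_simp
        ring
      · intro i hi
        by_contra h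
        have h4 : μ i = 0 := by by_contra h'; exact h ((hsm i).2 h')
        simp only [Finset.mem_filter, Finset.mem_univ, true_and, hμ', h4, hc0 i h, mul_zero,
          sub_zero, ne_eq, not_true_eq_false] at hi
    exact ih _ (by rw [← hN]; exact Finset.card_lt_card h3) μ' rfl h1 h2

/-- the cone generated by the vectors `v i` -/
def coneOf {p n : ℕ} (v : Fin p → Fin n → ℤ) : Set (Fin n → ℝ) :=
  {w | ∃ μ : Fin p → ℝ, (∀ i, 0 ≤ μ i) ∧ ∀ j, w j = ∑ i, μ i * (v i j : ℝ)}

/-- the point with coordinates `u` with respect to the vectors `v (T i)` -/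
def pt {p n d : ℕ} (v : Fin p → Fin n → ℤ) (T : Fin d → Fin p) (u : Fin d → ℝ) : Fin n → ℝ :=
  fun j => ∑ i, u i * (v (T i) j : ℝ)

variable {p n d : ℕ} (v : Fin p → Fin n → ℤ) (T : Fin d → Fin p)

theorem coneOf_add {x y : Fin n → ℝ} (hx : x ∈ coneOf v) (hy : y ∈ coneOf v) :
    x + y ∈ coneOf v := by
  obtain ⟨μ, hμ, h1⟩ := hx
  obtain ⟨ν, hν, h2⟩ := hy
  refine ⟨fun i => μ i + ν i, fun i => add_nonneg (hμ i) (hν i), fun j => ?_⟩
  simp only [Pi.add_apply, h1, h2, add_mul, Finset.sum_add_distrib]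

theorem coneOf_smul {x : Fin n → ℝ} (hx : x ∈ coneOf v) {t : ℝ} (ht : 0 ≤ t) :
    t • x ∈ coneOf v := by
  obtain ⟨μ, hμ, h1⟩ := hx
  refine ⟨fun i => t * μ i, fun i => mul_nonneg ht (hμ i), fun j => ?_⟩
  simp only [Pi.smul_apply, smul_eq_mul, h1, Finset.mul_sum, mul_assoc]

theorem pt_mem {u : Fin d → ℝ} (hu : ∀ i, 0 ≤ u i) : pt v T u ∈ coneOf v := by
  classical
  refine ⟨fun k => ∑ i, if T i = k then u i else 0, fun k => Finset.sum_nonneg fun i _ => ?_,
    fun j => ?_⟩
  · split_ifs
    · exact hu i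
    · exact le_rfl
  · simp only [pt, Finset.sum_mul]
    rw [Finset.sum_comm]
    refine Finset.sum_congr rfl fun i _ => ?_
    rw [Finset.sum_eq_single (T i)]
    · simp
    · intro b _ hb
      rw [if_neg (Ne.symm hb), zero_mul]
    · intro h; exact absurd (Finset.mem_univ _) h

theorem pt_add (u u' : Fin d → ℝ) : pt v T (u + u') = pt v T u + pt v T u' := by
  funext j
  simp only [pt, Pi.add_apply, add_mul, Finset.sum_add_distrib]

theorem pt_smul (t : ℝ) (u : Fin d → ℝ) : pt v T (t • u) = t • pt v T u := by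
  funext j
  simp only [pt, Pi.smul_apply, smul_eq_mul, Finset.mul_sum, mul_assoc]

theorem interior_add {x y : Fin n → ℝ} (hx : x ∈ interior (coneOf v)) (hy : y ∈ coneOf v) :
    x + y ∈ interior (coneOf v) := by
  have h1 : IsOpen ((fun z => y + z) '' interior (coneOf v)) :=
    isOpenMap_add_left y _ isOpen_interior
  have h2 : ((fun z => y + z) '' interior (coneOf v)) ⊆ coneOf v := by
    rintro _ ⟨z, hz, rfl⟩
    exact coneOf_add v hy (interior_subset hz)
  have h3 := interior_maximal h2 h1
  rw [add_comm]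
  exact h3 ⟨x, hx, rfl⟩

theorem interior_smul {x : Fin n → ℝ} (hx : x ∈ interior (coneOf v)) {t : ℝ} (ht : 0 < t) :
    t • x ∈ interior (coneOf v) := by
  have h1 : IsOpen (t • interior (coneOf v)) := isOpen_interior.smul₀ ht.ne'
  have h2 : (t • interior (coneOf v)) ⊆ coneOf v := by
    rintro _ ⟨z, hz, rfl⟩
    exact coneOf_smul v (interior_subset hz) ht.le
  exact interior_maximal h2 h1 ⟨x, hx, rfl⟩

theorem pt_interior {l u : Fin d → ℝ} (hl : pt v T l ∈ interior (coneOf v))
    (hu : ∀ i, 0 < u i) : pt v T u ∈ interior (coneOf v) := by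
  obtain ⟨t, ht, h⟩ : ∃ t : ℝ, 0 < t ∧ ∀ i, 0 ≤ u i - t * l i := by
    rcases isEmpty_or_nonempty (Fin d) with h | h
    · exact ⟨1, one_pos, fun i => (h.false i).elim⟩
    · obtain ⟨i0, hi0⟩ := Finite.exists_min (fun i => u i / (|l i| + 1))
      have hp : ∀ i, 0 < |l i| + 1 := fun i => by positivity
      refine ⟨u i0 / (|l i0| + 1), div_pos (hu i0) (hp i0), fun i => ?_⟩
      have h1 := hi0 i
      have h2 : u i0 / (|l i0| + 1) * l i ≤ u i / (|l i| + 1) * (|l i| + 1) := by
        have h3 : 0 ≤ u i0 / (|l i0| + 1) := (div_pos (hu i0) (hp i0)).le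
        calc u i0 / (|l i0| + 1) * l i ≤ u i0 / (|l i0| + 1) * (|l i| + 1) :=
              mul_le_mul_of_nonneg_left (by linarith [le_abs_self (l i)]) h3
          _ ≤ u i / (|l i| + 1) * (|l i| + 1) := mul_le_mul_of_nonneg_right h1 (hp i).le
      rw [div_mul_cancel₀ _ (hp i).ne'] at h2
      linarith
  have h1 : u = t • l + (u - t • l) := by abel
  rw [h1, pt_add, pt_smul]
  exact interior_add v (interior_smul v hl ht) (pt_mem v T fun i => by simpa using h i)

/-- the lattice of integral points in the coordinates with respect to `v (T i)` -/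
def latt : AddSubgroup (Fin d → ℝ) where
  carrier := {u | ∃ z : Fin n → ℤ, pt v T u = fun j => (z j : ℝ)}
  zero_mem' := ⟨0, by funext j; simp [pt]⟩
  add_mem' := by
    rintro a b ⟨x, hx⟩ ⟨y, hy⟩
    refine ⟨x + y, ?_⟩
    rw [pt_add, hx, hy]
    funext j
    simp
  neg_mem' := by
    rintro a ⟨x, hx⟩
    refine ⟨-x, ?_⟩
    have : -a = (-1 : ℝ) • a := by simp
    rw [this, pt_smul, hx]
    funext j
    simp

theorem latt_isOver (hli : LinearIndependent ℝ (fun i => (fun j => (v (T i) j : ℝ)))) :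
    IsOver (latt v T) := by
  refine ⟨?_, ?_⟩
  · intro z
    refine ⟨fun j => ∑ i, z i * v (T i) j, ?_⟩
    funext j
    simp only [pt]
    push_cast
    rfl
  · have hinj : Function.Injective (pt v T) := by
      intro a b hab
      have h0 : ∑ i, (a i - b i) • (fun j => (v (T i) j : ℝ)) = 0 := by
        funext j
        have := congrFun hab j
        simp only [pt] at this
        simp only [Finset.sum_apply, Pi.smul_apply, smul_eq_mul, Pi.zero_apply, sub_mul,
          Finset.sum_sub_distrib]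
        linarith
      have := Fintype.linearIndependent_iff.1 hli _ h0
      funext i
      linarith [this i]
    set B : Fin n → ℤ := fun j => ∑ i, |v (T i) j| with hB
    have hfin : ((fun z : Fin n → ℤ => (fun j => (z j : ℝ) : Fin n → ℝ)) '' Set.Icc (-B) B).Finite :=
      (Set.finite_Icc _ _).image _
    refine Set.Finite.of_finite_image (f := pt v T) (hfin.subset ?_) hinj.injOn
    rintro _ ⟨g, ⟨⟨z, hz⟩, hg⟩, rfl⟩
    refine ⟨z, ?_, hz.symm⟩
    have h1 : ∀ j, |z j| ≤ B j := by
      intro j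
      have h2 : |(z j : ℝ)| ≤ ∑ i, |(v (T i) j : ℝ)| := by
        have := congrFun hz j
        rw [← this, pt]
        refine (Finset.abs_sum_le_sum_abs _ _).trans (Finset.sum_le_sum fun i _ => ?_)
        rw [abs_mul]
        have h3 : |g i| ≤ 1 := by rw [abs_le]; constructor <;> linarith [(hg i).1, (hg i).2]
        exact mul_le_of_le_one_left (abs_nonneg _) h3
      have h3 : ((|z j| : ℤ) : ℝ) ≤ ((B j : ℤ) : ℝ) := by
        rw [hB]; push_cast; exact h2
      exact_mod_cast h3
    rw [Set.mem_Icc]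
    exact ⟨fun j => (abs_le.1 (h1 j)).1, fun j => (abs_le.1 (h1 j)).2⟩

end Pool.Agent.helper22.ACC
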