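import Mathlib

/-!
# Monomial ideals are well quasi ordered by reverse inclusion

`Sm S T`: the ideal generated by the exponents `T` is contained in the one generated by `S`.
-/

noncomputable section

namespace Pool.Agent.helper22.ACC

open Finset

variable {d : ℕ}

/-- the monomial ideal of `T` is contained in the monomial ideal of `S` -/
def Sm (S T : Set (Fin d → ℕ)) : Prop := ∀ t ∈ T, ∃ s ∈ S, s ≤ t

instance : IsPreorder (Set (Fin d → ℕ)) (Sm (d := d)) where
  refl S t ht := ⟨t, ht, le_rfl⟩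
  trans S T U h1 h2 u hu := by
    obtain ⟨t, ht, htu⟩ := h2 u hu
    obtain ⟨s, hs, hst⟩ := h1 t ht
    exact ⟨s, hs, hst.trans htu⟩

/-- exponents outside of the ideal -/
def Dn (S : Set (Fin d → ℕ)) : Set (Fin d → ℕ) := {t | ¬ ∃ s ∈ S, s ≤ t}

/-- extended exponents all of whose finite lower bounds are outside of the ideal -/
def Xt (S : Set (Fin d → ℕ)) : Set (Fin d → ℕ∞) :=
  {x | ∀ t : Fin d → ℕ, (∀ i, (t i : ℕ∞) ≤ x i) → t ∈ Dn S}

theorem chain_ub (S : Set (Fin d → ℕ)) {c : Set (Fin d → ℕ∞)} (hc : c ⊆ Xt S)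
    (hch : IsChain (· ≤ ·) c) {y : Fin d → ℕ∞} (hy : y ∈ c) : sSup c ∈ Xt S := by
  intro t ht
  have h1 : ∀ i, ∃ x ∈ c, (t i : ℕ∞) ≤ x i := by
    intro i
    rcases Nat.eq_zero_or_pos (t i) with h0 | h0
    · exact ⟨y, hy, by rw [h0]; simp⟩
    · obtain ⟨k, hk⟩ := Nat.exists_eq_succ_of_ne_zero h0.ne'
      have h2 : ((k : ℕ) : ℕ∞) < (sSup c) i := by
        refine lt_of_lt_of_le ?_ (ht i)
        rw [hk]; exact_mod_cast Nat.lt_succ_self k
      rw [sSup_apply, lt_iSup_iff] at h2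
      obtain ⟨x, hx⟩ := h2
      refine ⟨x, x.2, ?_⟩
      rw [hk]
      have := Order.add_one_le_of_lt hx
      exact_mod_cast this
  have h2 : ∀ s : Finset (Fin d), ∃ x ∈ c, ∀ i ∈ s, (t i : ℕ∞) ≤ x i := by
    intro s
    induction s using Finset.induction_on with
    | empty => exact ⟨y, hy, by simp⟩
    | insert i s _ ih =>
      obtain ⟨x, hx, hxs⟩ := ih
      obtain ⟨z, hz, hzi⟩ := h1 i
      rcases hch.total hx hz with h | h
      · refine ⟨z, hz, fun j hj => ?_⟩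
        rcases Finset.mem_insert.1 hj with rfl | hj
        · exact hzi
        · exact (hxs j hj).trans (h j)
      · refine ⟨x, hx, fun j hj => ?_⟩
        rcases Finset.mem_insert.1 hj with rfl | hj
        · exact hzi.trans (h j)
        · exact hxs j hj
  obtain ⟨x, hx, hxt⟩ := h2 Finset.univ
  exact hc hx t fun i => hxt i (Finset.mem_univ i)

instance : WellQuasiOrderedLE (Fin d → ℕ∞) := by
  rw [← Set.isPWO_univ_iff]
  have := Set.IsPWO.pi (α := fun _ : Fin d => ℕ∞) (s := fun _ => Set.univ)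
    fun _ => Set.IsPWO.of_linearOrder _
  rwa [Set.pi_univ] at this

theorem exists_cover (S : Set (Fin d → ℕ)) : ∃ l : List (Fin d → ℕ∞), (∀ x ∈ l, x ∈ Xt S) ∧
    ∀ t ∈ Dn S, ∃ x ∈ l, ∀ i, (t i : ℕ∞) ≤ x i := by
  have hfin : {x | Maximal (· ∈ Xt S) x}.Finite :=
    WellQuasiOrderedLE.finite_of_isAntichain (setOfPred_maximal_antichain _)
  refine ⟨hfin.toFinset.toList, ?_, ?_⟩
  · intro x hx
    rw [Finset.mem_toList, Set.Finite.mem_toFinset] at hx
    exact hx.prop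
  · intro t ht
    have h1 : (fun i => (t i : ℕ∞)) ∈ Xt S := by
      rintro u hu ⟨s, hs, hsu⟩
      refine ht ⟨s, hs, hsu.trans fun i => ?_⟩
      have h2 : ((u i : ℕ) : ℕ∞) ≤ ((t i : ℕ) : ℕ∞) := hu i
      exact_mod_cast h2
    obtain ⟨m, hm, hmax⟩ := zorn_le_nonempty₀ (Xt S)
      (fun c hc hch y hy => ⟨sSup c, chain_ub S hc hch hy, fun z hz => le_sSup hz⟩) _ h1
    refine ⟨m, ?_, fun i => hm i⟩
    rw [Finset.mem_toList, Set.Finite.mem_toFinset]
    exact hmax

/-- **Maclagan's theorem**, from Higman's lemma. -/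
theorem sm_wqo : WellQuasiOrdered (Sm (d := d)) := by
  intro f
  choose l hl hc using fun k => exists_cover (f k)
  have hP : (Set.univ : Set (Fin d → ℕ∞)).PartiallyWellOrderedOn (· ≤ ·) :=
    Set.partiallyWellOrderedOn_univ_iff.2 wellQuasiOrdered_le
  have hH := Set.PartiallyWellOrderedOn.partiallyWellOrderedOn_sublistForall₂ (· ≤ ·) hP
  obtain ⟨m, n, hmn, hle⟩ := hH.exists_lt (f := l) (fun n x _ => Set.mem_univ x)
  refine ⟨m, n, hmn, ?_⟩
  intro t ht
  by_contra hcon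
  obtain ⟨x, hx, hxt⟩ := hc m t hcon
  rw [List.sublistForall₂_iff] at hle
  obtain ⟨l', h1, h2⟩ := hle
  have h3 : ∀ {a b : List (Fin d → ℕ∞)}, List.Forall₂ (· ≤ ·) a b → ∀ x ∈ a, ∃ y ∈ b, x ≤ y := by
    intro a b hab
    induction hab with
    | nil => simp
    | cons hr _ ih =>
      intro x hx
      rcases List.mem_cons.1 hx with rfl | hx
      · exact ⟨_, List.mem_cons_self, hr⟩
      · obtain ⟨y, hy, hxy⟩ := ih x hx
        exact ⟨y, List.mem_cons_of_mem _ hy, hxy⟩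
  obtain ⟨y, hy, hxy⟩ := h3 h1 x hx
  have hy' := hl n y (h2.subset hy)
  exact hy' t (fun i => (hxt i).trans (hxy i)) ⟨t, ht, le_rfl⟩

end Pool.Agent.helper22.ACC
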