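import Mathlib

/-!
# Approximation by points of overlattices of `ℤ^d`

If the dual lattice of `L ⊇ ℤ^d` agrees with `M` on a large finite set, then every vector which pairs
integrally with `M` is close to `L`.
-/

noncomputable section

namespace Pool.Agent.helper22.ACC

open Finset

variable {d : ℕ}

/-- a subgroup of `ℝ^d` which contains `ℤ^d` and is finite modulo `ℤ^d` -/
structure IsOver (L : AddSubgroup (Fin d → ℝ)) : Prop where
  std : ∀ z : Fin d → ℤ, (fun i => (z i : ℝ)) ∈ L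
  fin : {g : Fin d → ℝ | g ∈ L ∧ ∀ i, 0 ≤ g i ∧ g i < 1}.Finite

/-- the dual lattice -/
def dualL (L : AddSubgroup (Fin d → ℝ)) : AddSubgroup (Fin d → ℤ) where
  carrier := {m | ∀ w ∈ L, ∃ z : ℤ, ∑ i, (m i : ℝ) * w i = z}
  zero_mem' := fun w _ => ⟨0, by simp⟩
  add_mem' := by
    intro a b ha hb w hw
    obtain ⟨x, hx⟩ := ha w hw
    obtain ⟨y, hy⟩ := hb w hw
    refine ⟨x + y, ?_⟩
    simp only [Pi.add_apply, Int.cast_add, add_mul, sum_add_distrib, hx, hy]
  neg_mem' := by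
    intro a ha w hw
    obtain ⟨x, hx⟩ := ha w hw
    refine ⟨-x, ?_⟩
    simp only [Pi.neg_apply, Int.cast_neg, neg_mul, sum_neg_distrib, hx]

/-- the character `exp(2πi ⟨m, w⟩)` -/
def chi (m : Fin d → ℤ) (w : Fin d → ℝ) : ℂ :=
  Complex.exp (2 * Real.pi * Complex.I * ((∑ i, (m i : ℝ) * w i : ℝ) : ℂ))

theorem chi_add (m : Fin d → ℤ) (v w : Fin d → ℝ) : chi m (v + w) = chi m v * chi m w := by
  rw [chi, chi, chi, ← Complex.exp_add]
  congr 1
  simp only [Pi.add_apply, mul_add, sum_add_distrib, Complex.ofReal_add]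

theorem chi_one {m : Fin d → ℤ} {w : Fin d → ℝ} (h : ∃ z : ℤ, ∑ i, (m i : ℝ) * w i = z) :
    chi m w = 1 := by
  obtain ⟨z, hz⟩ := h
  rw [chi, hz, Complex.exp_eq_one_iff]
  exact ⟨z, by push_cast; ring⟩

theorem chi_eq_one {m : Fin d → ℤ} {w : Fin d → ℝ} (h : chi m w = 1) :
    ∃ z : ℤ, ∑ i, (m i : ℝ) * w i = z := by
  rw [chi, Complex.exp_eq_one_iff] at h
  obtain ⟨n, hn⟩ := h
  refine ⟨n, ?_⟩
  have h0 : (2 * Real.pi * Complex.I : ℂ) ≠ 0 := Complex.two_pi_I_ne_zero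
  have h1 : ((∑ i, (m i : ℝ) * w i : ℝ) : ℂ) = ((n : ℝ) : ℂ) := by
    have : (2 * Real.pi * Complex.I : ℂ) * ((∑ i, (m i : ℝ) * w i : ℝ) : ℂ)
        = (2 * Real.pi * Complex.I : ℂ) * ((n : ℝ) : ℂ) := by
      rw [hn]; push_cast; ring
    exact mul_left_cancel₀ h0 this
  exact_mod_cast h1

/-- fractional parts -/
def fr (w : Fin d → ℝ) : Fin d → ℝ := fun i => Int.fract (w i)

theorem fr_mem {L : AddSubgroup (Fin d → ℝ)} (hL : IsOver L) {w : Fin d → ℝ} (hw : w ∈ L) :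
    fr w ∈ L := by
  have : fr w = w - fun i => ((⌊w i⌋ : ℤ) : ℝ) := by
    funext i; simp only [fr, Pi.sub_apply, Int.fract]
  rw [this]
  exact L.sub_mem hw (hL.std _)

theorem chi_fr (m : Fin d → ℤ) (w : Fin d → ℝ) : chi m (fr w) = chi m w := by
  have h : w = fr w + fun i => ((⌊w i⌋ : ℤ) : ℝ) := by
    funext i; simp only [fr, Pi.add_apply, Int.fract_add_floor]
  have h1 : chi m (fun i => ((⌊w i⌋ : ℤ) : ℝ)) = 1 :=
    chi_one ⟨∑ i, m i * ⌊w i⌋, by push_cast; rfl⟩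
  conv_rhs => rw [h, chi_add, h1, mul_one]

/-- representatives of `L / ℤ^d` -/
def reps {L : AddSubgroup (Fin d → ℝ)} (hL : IsOver L) : Finset (Fin d → ℝ) := hL.fin.toFinset

theorem mem_reps {L : AddSubgroup (Fin d → ℝ)} (hL : IsOver L) {g : Fin d → ℝ} :
    g ∈ reps hL ↔ g ∈ L ∧ ∀ i, 0 ≤ g i ∧ g i < 1 := by
  rw [reps, Set.Finite.mem_toFinset]; rfl

theorem sum_shift {L : AddSubgroup (Fin d → ℝ)} (hL : IsOver L) (m : Fin d → ℤ)
    {g0 : Fin d → ℝ} (h0 : g0 ∈ L) :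
    ∑ g ∈ reps hL, chi m (g + g0) = ∑ g ∈ reps hL, chi m g := by
  refine Finset.sum_bij' (fun g _ => fr (g + g0)) (fun g _ => fr (g - g0)) ?_ ?_ ?_ ?_ ?_
  · intro g hg
    rw [mem_reps] at hg ⊢
    exact ⟨fr_mem hL (L.add_mem hg.1 h0), fun i => ⟨Int.fract_nonneg _, Int.fract_lt_one _⟩⟩
  · intro g hg
    rw [mem_reps] at hg ⊢
    exact ⟨fr_mem hL (L.sub_mem hg.1 h0), fun i => ⟨Int.fract_nonneg _, Int.fract_lt_one _⟩⟩
  · intro g hg
    rw [mem_reps] at hg
    funext i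
    simp only [fr, Pi.add_apply, Pi.sub_apply]
    rw [Int.fract_eq_iff]
    refine ⟨(hg.2 i).1, (hg.2 i).2, -⌊g i + g0 i⌋, ?_⟩
    rw [Int.fract]; push_cast; ring
  · intro g hg
    rw [mem_reps] at hg
    funext i
    simp only [fr, Pi.add_apply, Pi.sub_apply]
    rw [Int.fract_eq_iff]
    refine ⟨(hg.2 i).1, (hg.2 i).2, -⌊g i - g0 i⌋, ?_⟩
    rw [Int.fract]; push_cast; ring
  · intro g hg
    rw [chi_fr]

theorem sum_chi_zero {L : AddSubgroup (Fin d → ℝ)} (hL : IsOver L) {m : Fin d → ℤ}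
    (hm : m ∉ dualL L) : ∑ g ∈ reps hL, chi m g = 0 := by
  have : ∃ g0 ∈ L, ¬ ∃ z : ℤ, ∑ i, (m i : ℝ) * g0 i = z := by
    by_contra hcon
    push Not at hcon
    exact hm fun w hw => hcon w hw
  obtain ⟨g0, hg0, hne⟩ := this
  have h1 := sum_shift hL m hg0
  simp only [chi_add] at h1
  rw [← Finset.sum_mul] at h1
  have h2 : chi m g0 ≠ 1 := fun h => hne (chi_eq_one h)
  have h3 : (∑ g ∈ reps hL, chi m g) * (chi m g0 - 1) = 0 := by rw [mul_sub, h1]; ring
  rcases mul_eq_zero.mp h3 with h | h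
  · exact h
  · exact absurd (sub_eq_zero.mp h) h2

theorem sum_chi_card {L : AddSubgroup (Fin d → ℝ)} (hL : IsOver L) {m : Fin d → ℤ}
    (hm : m ∈ dualL L) : ∑ g ∈ reps hL, chi m g = (reps hL).card := by
  rw [Finset.sum_congr rfl fun g hg => chi_one (hm g ((mem_reps hL).1 hg).1)]
  simp

/-! ## the kernel -/

/-- the exponent `J - N` -/
def ex (N : ℕ) (J : Fin d → ℕ) : Fin d → ℤ := fun i => (J i : ℤ) - N

theorem cos_pow (N : ℕ) (x : ℝ) : ((Real.cos (Real.pi * x) ^ (2 * N) : ℝ) : ℂ) =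
    ∑ j ∈ range (2 * N + 1), (((2 * N).choose j : ℝ) / 4 ^ N : ℝ) *
      Complex.exp (2 * Real.pi * Complex.I * ((((j : ℤ) - N : ℤ) : ℝ) * x : ℝ)) := by
  have h1 : ((Real.cos (Real.pi * x) : ℝ) : ℂ) =
      (Complex.exp (Real.pi * x * Complex.I) + Complex.exp (-(Real.pi * x * Complex.I))) / 2 := by
    rw [Complex.ofReal_cos, Complex.cos]
    push_cast
    congr 3
    ring
  rw [Complex.ofReal_pow, h1, div_pow, add_pow, Finset.sum_div]
  refine Finset.sum_congr rfl fun j hj => ?_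
  rw [Finset.mem_range] at hj
  have h4 : (2 : ℂ) ^ (2 * N) = 4 ^ N := by rw [pow_mul]; norm_num
  rw [h4, ← Complex.exp_nat_mul, ← Complex.exp_nat_mul, ← Complex.exp_add]
  have h5 : ((j : ℕ) : ℂ) * (Real.pi * x * Complex.I)
      + ((2 * N - j : ℕ) : ℂ) * (-(Real.pi * x * Complex.I))
      = 2 * Real.pi * Complex.I * ((((j : ℤ) - N : ℤ) : ℝ) * x : ℝ) := by
    rw [Nat.cast_sub (by omega)]
    push_cast
    ring
  rw [h5]
  push_cast
  ring

theorem kernel_expand (N : ℕ) (x : Fin d → ℝ) :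
    ((∏ i, Real.cos (Real.pi * x i) ^ (2 * N) : ℝ) : ℂ) =
    ∑ J ∈ Fintype.piFinset (fun _ : Fin d => range (2 * N + 1)),
      ((∏ i, ((2 * N).choose (J i) : ℝ) / 4 ^ N : ℝ) : ℂ) * chi (ex N J) x := by
  rw [Complex.ofReal_prod]
  simp only [cos_pow]
  rw [Finset.prod_univ_sum]
  refine Finset.sum_congr rfl fun J _ => ?_
  rw [Finset.prod_mul_distrib, Complex.ofReal_prod]
  congr 1
  rw [← Complex.exp_sum, chi, ← Finset.mul_sum]
  congr 2
  push_cast [ex]
  rfl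

theorem sum_kernel {L : AddSubgroup (Fin d → ℝ)} (hL : IsOver L) (N : ℕ)
    {M : AddSubgroup (Fin d → ℤ)} {w : Fin d → ℝ}
    (hw : ∀ m ∈ M, ∃ z : ℤ, ∑ i, (m i : ℝ) * w i = z)
    (hB : ∀ J ∈ Fintype.piFinset (fun _ : Fin d => range (2 * N + 1)),
      (ex N J ∈ dualL L ↔ ex N J ∈ M)) :
    ((reps hL).card : ℝ) * (((2 * N).choose N : ℝ) / 4 ^ N) ^ d ≤
      ∑ g ∈ reps hL, ∏ i, Real.cos (Real.pi * (w i - g i)) ^ (2 * N) := by
  classical
  set B := Fintype.piFinset (fun _ : Fin d => range (2 * N + 1)) with hBdef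
  set c : (Fin d → ℕ) → ℝ := fun J => ∏ i, ((2 * N).choose (J i) : ℝ) / 4 ^ N with hc
  have hcn : ∀ J, 0 ≤ c J := fun J => Finset.prod_nonneg fun i _ => by positivity
  have h1 : ((∑ g ∈ reps hL, ∏ i, Real.cos (Real.pi * (w i - g i)) ^ (2 * N) : ℝ) : ℂ) =
      ((∑ J ∈ B.filter (fun J => ex N J ∈ M), c J * (reps hL).card : ℝ) : ℂ) := by
    rw [Complex.ofReal_sum]
    have e1 : ∀ g ∈ reps hL, ((∏ i, Real.cos (Real.pi * (w i - g i)) ^ (2 * N) : ℝ) : ℂ) =
        ∑ J ∈ B, ((c J : ℝ) : ℂ) * (chi (ex N J) w * chi (-(ex N J)) g) := by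
      intro g _
      have := kernel_expand N (w - g)
      simp only [Pi.sub_apply] at this
      rw [this]
      refine Finset.sum_congr rfl fun J _ => ?_
      congr 1
      rw [sub_eq_add_neg, chi_add]
      congr 1
      rw [chi, chi]
      congr 3
      refine Finset.sum_congr rfl fun i _ => ?_
      simp
    rw [Finset.sum_congr rfl e1, Finset.sum_comm, Finset.sum_filter, Complex.ofReal_sum]
    refine Finset.sum_congr rfl fun J hJ => ?_
    rw [← Finset.mul_sum, ← Finset.mul_sum]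
    by_cases hJM : ex N J ∈ M
    · rw [if_pos hJM, chi_one (hw _ hJM), one_mul,
        sum_chi_card hL ((dualL L).neg_mem ((hB J hJ).2 hJM))]
      push_cast
      ring
    · rw [if_neg hJM, sum_chi_zero hL (m := -(ex N J))]
      · simp
      · intro h
        exact hJM ((hB J hJ).1 (by simpa using (dualL L).neg_mem h))
  have h2 : (∑ g ∈ reps hL, ∏ i, Real.cos (Real.pi * (w i - g i)) ^ (2 * N)) =
      ∑ J ∈ B.filter (fun J => ex N J ∈ M), c J * (reps hL).card := by exact_mod_cast h1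
  rw [h2]
  have hJ0 : (fun _ => N : Fin d → ℕ) ∈ B.filter (fun J => ex N J ∈ M) := by
    rw [Finset.mem_filter, hBdef, Fintype.mem_piFinset]
    refine ⟨fun i => by simp; omega, ?_⟩
    have : ex N (fun _ : Fin d => N) = 0 := by funext i; simp [ex]
    rw [this]; exact M.zero_mem
  refine le_trans (le_of_eq ?_) (Finset.single_le_sum (f := fun J => c J * (reps hL).card)
    (fun J _ => mul_nonneg (hcn J) (Nat.cast_nonneg _)) hJ0)
  simp only [hc, Finset.prod_const, Finset.card_univ, Fintype.card_fin]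
  ring

theorem cos_le {ε x : ℝ} (h0 : 0 < ε) (h1 : ε ≤ 1 / 2) (hx : ∀ z : ℤ, ε ≤ |x - z|) :
    Real.cos (Real.pi * x) ^ 2 ≤ Real.cos (Real.pi * ε) ^ 2 := by
  set y := x - round x with hy
  have hy1 : |y| ≤ 1 / 2 := abs_sub_round x
  have hy2 : ε ≤ |y| := hx (round x)
  have h3 : Real.cos (Real.pi * x) ^ 2 = Real.cos (Real.pi * |y|) ^ 2 := by
    have e1 : Real.cos (Real.pi * |y|) = Real.cos (Real.pi * y) := by
      rcases abs_choice y with h | h
      · rw [h]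
      · rw [h, mul_neg, Real.cos_neg]
    rw [e1]
    have e2 : Real.pi * y = Real.pi * x - (round x : ℤ) * Real.pi := by rw [hy]; ring
    rw [e2, Real.cos_sub_int_mul_pi, mul_pow]
    have : ((-1 : ℝ) ^ (round x : ℤ)) ^ 2 = 1 := by
      rw [← zpow_natCast, ← zpow_mul, mul_comm, zpow_mul]
      norm_num
    rw [this, one_mul]
  rw [h3]
  have h4 : Real.cos (Real.pi * |y|) ≤ Real.cos (Real.pi * ε) := by
    apply Real.cos_le_cos_of_nonneg_of_le_pi
    · positivity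
    · nlinarith [Real.pi_pos]
    · exact mul_le_mul_of_nonneg_left hy2 Real.pi_pos.le
  have h5 : 0 ≤ Real.cos (Real.pi * |y|) := by
    apply Real.cos_nonneg_of_neg_pi_div_two_le_of_le
    · have : 0 ≤ Real.pi * |y| := by positivity
      linarith [Real.pi_pos]
    · nlinarith [Real.pi_pos]
  exact pow_le_pow_left₀ h5 h4 2

theorem exists_N (d : ℕ) {ε : ℝ} (h0 : 0 < ε) (h1 : ε ≤ 1 / 2) :
    ∃ N : ℕ, 0 < N ∧ (Real.cos (Real.pi * ε) ^ 2) ^ N < (((2 * N).choose N : ℝ) / 4 ^ N) ^ d := by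
  set r := Real.cos (Real.pi * ε) ^ 2 with hr
  have hr0 : 0 ≤ r := sq_nonneg _
  have hr1 : r < 1 := by
    have h2 : Real.cos (Real.pi * ε) < 1 := by
      rw [← Real.cos_zero]
      apply Real.cos_lt_cos_of_nonneg_of_le_pi le_rfl
      · nlinarith [Real.pi_pos]
      · positivity
    have h3 : 0 ≤ Real.cos (Real.pi * ε) := by
      apply Real.cos_nonneg_of_neg_pi_div_two_le_of_le
      · have : 0 ≤ Real.pi * ε := by positivity
        linarith [Real.pi_pos]
      · nlinarith [Real.pi_pos]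
    rw [hr]; nlinarith
  have ht := tendsto_pow_const_mul_const_pow_of_abs_lt_one d (r := r) (by rw [abs_of_nonneg hr0]; exact hr1)
  have h2d : (0 : ℝ) < (1 / 2) ^ d := by positivity
  have hev := (ht.eventually (gt_mem_nhds h2d)).and (Filter.eventually_gt_atTop 0)
  obtain ⟨N, hN, hN0⟩ := hev.exists
  refine ⟨N, hN0, ?_⟩
  have hNr : (0 : ℝ) < N := by exact_mod_cast hN0
  have hb : (1 / (2 * N) : ℝ) ≤ ((2 * N).choose N : ℝ) / 4 ^ N := by
    have h := Nat.four_pow_le_two_mul_self_mul_centralBinom N hN0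
    have h' : (4 : ℝ) ^ N ≤ 2 * N * ((2 * N).choose N : ℝ) := by
      have : ((4 ^ N : ℕ) : ℝ) ≤ ((2 * N * N.centralBinom : ℕ) : ℝ) := by exact_mod_cast h
      rw [Nat.centralBinom] at this
      push_cast at this
      exact this
    rw [div_le_div_iff₀ (by positivity) (by positivity)]
    linarith
  have hb2 : (1 / (2 * N) : ℝ) ^ d ≤ (((2 * N).choose N : ℝ) / 4 ^ N) ^ d :=
    pow_le_pow_left₀ (by positivity) hb d
  refine lt_of_lt_of_le ?_ hb2
  have h3 : (1 / (2 * N) : ℝ) ^ d = (1 / 2) ^ d / (N : ℝ) ^ d := by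
    rw [← div_pow]; congr 1; field_simp
  rw [h3, lt_div_iff₀ (by positivity)]
  linarith [mul_comm (r ^ N) ((N : ℝ) ^ d)]

/-- **Density.** -/
theorem density (M : AddSubgroup (Fin d → ℤ)) (w : Fin d → ℝ)
    (hw : ∀ m ∈ M, ∃ z : ℤ, ∑ i, (m i : ℝ) * w i = z) {ε : ℝ} (hε : 0 < ε) :
    ∃ B : Finset (Fin d → ℤ), ∀ L : AddSubgroup (Fin d → ℝ), IsOver L →
      (∀ m ∈ B, (m ∈ dualL L ↔ m ∈ M)) → ∃ g ∈ L, ∀ i, |w i - g i| < ε := by
  classical
  set ε' := min ε (1 / 2) with hε'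
  have h0 : 0 < ε' := lt_min hε (by norm_num)
  have h1 : ε' ≤ 1 / 2 := min_le_right _ _
  obtain ⟨N, hN0, hN⟩ := exists_N d h0 h1
  refine ⟨(Fintype.piFinset (fun _ : Fin d => range (2 * N + 1))).image (ex N), ?_⟩
  intro L hL hB
  have hk := sum_kernel hL N hw (fun J hJ => hB _ (Finset.mem_image_of_mem _ hJ))
  by_contra hcon
  push Not at hcon
  have hup : ∀ g ∈ reps hL, ∏ i, Real.cos (Real.pi * (w i - g i)) ^ (2 * N) ≤
      (Real.cos (Real.pi * ε') ^ 2) ^ N := by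
    intro g hg
    have hgL := ((mem_reps hL).1 hg).1
    -- shift `g` by integers
    have hg' : (g + fun i => ((round (w i - g i) : ℤ) : ℝ)) ∈ L := L.add_mem hgL (hL.std _)
    obtain ⟨i, hi⟩ := hcon _ hg'
    have hi2 : ∀ z : ℤ, ε' ≤ |(w i - g i) - z| := by
      intro z
      have e1 : |(w i - g i) - round (w i - g i)| ≤ |(w i - g i) - z| := round_le _ z
      have e2 : w i - (g + fun i => ((round (w i - g i) : ℤ) : ℝ)) i
          = (w i - g i) - round (w i - g i) := by simp only [Pi.add_apply]; ring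
      rw [e2] at hi
      exact le_trans (min_le_left _ _) (le_trans hi e1)
    have hc := cos_le h0 h1 hi2
    have hrest : ∀ j, Real.cos (Real.pi * (w j - g j)) ^ (2 * N) ≤ 1 := by
      intro j
      rw [pow_mul]
      exact pow_le_one₀ (sq_nonneg _) (Real.cos_sq_le_one _)
    have hpos : ∀ j, 0 ≤ Real.cos (Real.pi * (w j - g j)) ^ (2 * N) := by
      intro j; rw [pow_mul]; positivity
    calc ∏ j, Real.cos (Real.pi * (w j - g j)) ^ (2 * N)
        = Real.cos (Real.pi * (w i - g i)) ^ (2 * N) *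
          ∏ j ∈ univ.erase i, Real.cos (Real.pi * (w j - g j)) ^ (2 * N) :=
          (Finset.mul_prod_erase univ _ (mem_univ i)).symm
      _ ≤ Real.cos (Real.pi * (w i - g i)) ^ (2 * N) * 1 :=
          mul_le_mul_of_nonneg_left (Finset.prod_le_one (fun j _ => hpos j) fun j _ => hrest j)
            (hpos i)
      _ ≤ (Real.cos (Real.pi * ε') ^ 2) ^ N := by
          rw [mul_one, pow_mul]
          exact pow_le_pow_left₀ (sq_nonneg _) hc N
  have hcard : 0 < (reps hL).card := by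
    rw [Finset.card_pos]
    exact ⟨0, (mem_reps hL).2 ⟨L.zero_mem, fun i => ⟨le_rfl, by simp⟩⟩⟩
  have hsum : ∑ g ∈ reps hL, ∏ i, Real.cos (Real.pi * (w i - g i)) ^ (2 * N) ≤
      (reps hL).card * (Real.cos (Real.pi * ε') ^ 2) ^ N := by
    refine le_trans (Finset.sum_le_sum hup) ?_
    simp
  have hcr : (0 : ℝ) < (reps hL).card := by exact_mod_cast hcard
  have := lt_of_lt_of_le (mul_lt_mul_of_pos_left hN hcr) (le_trans hk hsum)
  exact lt_irrefl _ this

end Pool.Agent.helper22.ACC
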